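import Pool.Agent.Helper17.SL.Chain
import Pool.Agent.Helper17.SL.TargetA
import Pool.Agent.Helper12.SL.GA1
import Pool.Agent.Helper26.SL.GA3
import Pool.Agent.Helper12.SL.GA7
import Pool.Agent.Helper42.SL.GA4
import Pool.Agent.Helper45.SL.GA5
import Pool.Agent.Helper38.FD.Defs

/-!
# Project LEO: the conjecture of Leopoldt for abelian fields

The theorem of Ax and Brumer, deduced from the `p`-adic theorem of Baker and Brumer for units
(`bb_holds`): the homomorphisms `u ↦ L(ι_p σ(u))`, `σ` an embedding of `F` in `Ω`, are jointly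
injective on `k ⊗ (𝓞_F)ˣ` if `F` is a Galois extension of `ℚ` with commutative group.
-/

namespace Pool.Agent.Helper17.LEO

open NumberField Module TensorProduct
open Pool.Agent.Helper51.SigLeo Pool.Agent.Helper51.SixExp Pool.Agent.Helper17.SL
open Pool.Agent.Helper38.FD

set_option linter.unusedSectionVars false

section core

variable {H : Type} [Field H] [NumberField H] [IsGalois ℚ H] [Fintype (H ≃ₐ[ℚ] H)]

/-- All the embeddings of `H` in `A` are conjugate. -/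
theorem exists_conj {A : Type} [Field A] (σ θ : H →+* A) :
    ∃ h : H ≃ₐ[ℚ] H, θ = σ.comp (h : H →+* H) :=
  PkGA7.thm ℚ H A σ θ (Subsingleton.elim _ _)

/-- The `χ`-part has dimension at most one. -/
theorem exists_gen {E : Type} [Field E] (ε : E →+* ℂ) (χ : (H ≃ₐ[ℚ] H) →* Eˣ) (ρ : H →+* ℂ) :
    (∀ u, tchi χ u = 0) ∨ ∃ u₁, Phi ε (archLog ρ) (tchi χ u₁) ≠ 0 ∧
      ∀ u, ∃ a : E, tchi χ u = a • tchi χ u₁ := by
  have hall : ∀ ρ' : H →+* ℂ, ∃ c : ℂ, ∀ u, Phi ε (archLog ρ') (tchi χ u) =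
      c * Phi ε (archLog ρ) (tchi χ u) := by
    intro ρ'
    obtain ⟨h, rfl⟩ := exists_conj ρ ρ'
    exact ⟨ε ((χ h : Eˣ) : E), fun u ↦ PkGA4.f_comp ε χ ρ h u⟩
  by_cases h0 : ∀ u, Phi ε (archLog ρ) (tchi χ u) = 0
  · left
    intro u
    refine PkGA3.thm H E ε _ fun ρ' ↦ ?_
    obtain ⟨c, hc⟩ := hall ρ'
    rw [hc, h0, mul_zero]
  · right
    push Not at h0
    obtain ⟨u₁, hu₁⟩ := h0
    refine ⟨u₁, hu₁, fun u ↦ ?_⟩
    set a : ℂ := Phi ε (archLog ρ) (tchi χ u) / Phi ε (archLog ρ) (tchi χ u₁) with ha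
    have hrel : PkGA4.TT ε _ (tchi χ u) - a • PkGA4.TT ε _ (tchi χ u₁) = 0 := by
      refine PkGA3.thm H ℂ (RingHom.id ℂ) _ fun ρ' ↦ ?_
      obtain ⟨c, hc⟩ := hall ρ'
      rw [map_sub, Phi_smul, PkGA4.Phi_TT, PkGA4.Phi_TT, hc, hc, ha, smul_eq_mul, RingHom.id_apply]
      field_simp
      ring
    have hmem : tchi χ u ∈ Submodule.span E {tchi χ u₁} := by
      by_contra hcon
      obtain ⟨F, hF1, hF2⟩ := Submodule.exists_le_ker_of_notMem hcon
      have hF3 : F (tchi χ u₁) = 0 := hF2 (Submodule.subset_span (by simp))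
      have h5 := congrArg (Phi (RingHom.id ℂ) ((ε : E →+ ℂ).comp (F.toAddMonoidHom.comp
        (TensorProduct.mk ℤ E (Additive (𝓞 H)ˣ) 1).toAddMonoidHom))) hrel
      rw [map_sub, Phi_smul, PkGA4.Phi_TT, PkGA4.Phi_TT, PkGA4.Phi_ext, PkGA4.Phi_ext,
        hF3, map_zero, map_zero, smul_zero, sub_zero] at h5
      exact hF1 ((map_eq_zero ε).1 h5)
    obtain ⟨a', h6⟩ := Submodule.mem_span_singleton.1 hmem
    exact ⟨a', h6.symm⟩

variable {Ω : Type} [Field Ω] [CharZero Ω] [IsAlgClosed Ω] [Algebra.IsAlgebraic ℚ Ω]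
  {p : ℕ} [Fact p.Prime] {k : Type} [NormedField k] [NormedAlgebra ℚ_[p] k]
  [IsUltrametricDist k] [CompleteSpace k] [CharZero k]

/-- One embedding suffices on the `χ`-part. -/
theorem eChi_eq_zero (ιinf : Ω →+* ℂ) (ιp : Ω →+* k) (Λ : IwasawaLog p k) (σ : H →+* Ω)
    (χ : (H ≃ₐ[ℚ] H) →* kˣ) (n : ℕ) (x : k ⊗[ℤ] Additive (𝓞 H)ˣ)
    (hx : extHom (logUnits Λ (ιp.comp σ)) (eChi n χ unitsHom x) = 0) :
    eChi n χ unitsHom x = 0 := by
  obtain ⟨E, hE, χ', hχ'⟩ := PkGA1.thm Ω k ιp (H ≃ₐ[ℚ] H) χ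
  set lam : E →+* Ω := algebraMap E Ω with hlam
  have hj : ∀ g, (ιp.comp lam) ((χ' g : Eˣ) : E) = χ g := fun g ↦ hχ' g
  rcases exists_gen (ιinf.comp lam) χ' (ιinf.comp σ) with h0 | ⟨u₁, hne, hu⟩
  · obtain ⟨A, B, hAB⟩ := PkGA5.exists_comb n (ιp.comp lam) χ χ' hj 0 0 (fun u ↦ ⟨0, 0, by
      rw [h0]; simp⟩) x
    rw [hAB, h0, map_zero, smul_zero, smul_zero, add_zero]
  · obtain ⟨A, B, hAB⟩ := PkGA5.exists_comb n (ιp.comp lam) χ χ' hj u₁ u₁ (fun u ↦ by
      obtain ⟨a, ha⟩ := hu u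
      exact ⟨a, 0, by rw [ha, zero_smul, add_zero]⟩) x
    rw [← add_smul] at hAB
    rw [hAB, map_smul, PkGA5.extHom_Phi, smul_eq_mul] at hx
    rcases mul_eq_zero.1 hx with h1 | h1
    · rw [hAB, h1, zero_smul]
    · exfalso
      apply hne
      have h3 := trans_holds p k Ω ιp Λ E lam (H ≃ₐ[ℚ] H)
        (fun g ↦ ((χ' g⁻¹ : Eˣ) : E))
        (fun g ↦ img σ (unitsHom g u₁).toMul) (fun g ↦ img_isUnitAlg _ _) (by
          rw [Phi_tchi] at h1
          rw [← h1]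
          refine Finset.sum_congr rfl fun g _ ↦ ?_
          rw [smul_eq_mul, log_img]
          rfl) (ιinf.comp lam) ιinf
      rw [Phi_tchi, ← h3]
      refine Finset.sum_congr rfl fun g _ ↦ ?_
      rw [smul_eq_mul]
      rfl

end core

section orth

variable {G k : Type} [Group G] [Fintype G] [Field k]

/-- Sum of the values of all the characters of a finite commutative group. -/
theorem sum_chr (hc : ∀ g h : G, g * h = h * g)
    (hr : HasEnoughRootsOfUnity k (Monoid.exponent G)) [Fintype (G →* kˣ)] [DecidableEq G] (g : G) :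
    ∑ χ : G →* kˣ, ((χ g : kˣ) : k) = if g = 1 then (Fintype.card G : k) else 0 := by
  let _ : CommGroup G := { (inferInstance : Group G) with mul_comm := hc }
  split_ifs with h
  · subst h
    simp only [map_one, Units.val_one, Finset.sum_const, Finset.card_univ, nsmul_eq_mul, mul_one]
    have h1 := CommGroup.card_monoidHom_of_hasEnoughRootsOfUnity G k
    rw [Nat.card_eq_fintype_card, Nat.card_eq_fintype_card] at h1
    have h2 : Fintype.card (G →* kˣ) = Fintype.card G := by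
      convert h1
    rw [h2]
  · obtain ⟨φ, hφ⟩ := CommGroup.exists_apply_ne_one_of_hasEnoughRootsOfUnity G k h
    have h1 : ∑ χ : G →* kˣ, ((χ g : kˣ) : k) =
        ((φ g : kˣ) : k) * ∑ χ : G →* kˣ, ((χ g : kˣ) : k) := by
      rw [Finset.mul_sum]
      symm
      refine Fintype.sum_equiv (Equiv.mulLeft φ) _ _ fun χ ↦ ?_
      rw [Equiv.coe_mulLeft, MonoidHom.mul_apply, Units.val_mul]
    have h2 : (((φ g : kˣ) : k) - 1) * ∑ χ : G →* kˣ, ((χ g : kˣ) : k) = 0 := by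
      linear_combination -h1
    rcases mul_eq_zero.1 h2 with h3 | h3
    · exact absurd (Units.ext (sub_eq_zero.1 h3)) hφ
    · exact h3

end orth

section all

variable {H : Type} [Field H] [NumberField H] [IsGalois ℚ H]

variable {Ω : Type} [Field Ω] [CharZero Ω] [IsAlgClosed Ω] [Algebra.IsAlgebraic ℚ Ω]
  {p : ℕ} [Fact p.Prime] {k : Type} [NormedField k] [NormedAlgebra ℚ_[p] k]
  [IsUltrametricDist k] [CompleteSpace k] [CharZero k]

theorem extEnd_one (x : k ⊗[ℤ] Additive (𝓞 H)ˣ) :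
    extEnd (unitsHom (1 : H ≃ₐ[ℚ] H)) x = x := by
  induction x using TensorProduct.induction_on with
  | zero => simp
  | tmul c m =>
    have h1 : extEnd (unitsHom (1 : H ≃ₐ[ℚ] H)) (c ⊗ₜ[ℤ] m) =
      c ⊗ₜ[ℤ] unitsHom (1 : H ≃ₐ[ℚ] H) m := by
      simp [extEnd, LinearMap.baseChange_tmul]
    rw [h1]
    rfl
  | add x y hx hy => rw [map_add, hx, hy]

theorem extHom_extEnd {M : Type} [AddCommGroup M] (ℓ : M →+ k) (f : M →+ M) (x : k ⊗[ℤ] M) :
    extHom ℓ (extEnd f x) = extHom (ℓ.comp f) x := by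
  induction x using TensorProduct.induction_on with
  | zero => simp
  | tmul c m => simp [extHom, extEnd, LinearMap.baseChange_tmul, LinearMap.liftBaseChange_tmul]
  | add x y hx hy => rw [map_add, map_add, map_add, hx, hy]

/-- The theorem of Ax and Brumer: all the embeddings together. -/
theorem all_injective (hc : ∀ g h : H ≃ₐ[ℚ] H, g * h = h * g) (ιinf : Ω →+* ℂ) (ιp : Ω →+* k)
    (Λ : IwasawaLog p k) (x : k ⊗[ℤ] Additive (𝓞 H)ˣ)
    (hx : ∀ σ : H →+* Ω, extHom (logUnits Λ (ιp.comp σ)) x = 0) : x = 0 := by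
  classical
  have hfG : Fintype (H ≃ₐ[ℚ] H) := Fintype.ofFinite _
  have hpos : 0 < Monoid.exponent (H ≃ₐ[ℚ] H) := Monoid.exponent_pos_of_exists _
    Fintype.card_pos fun g ↦ pow_card_eq_one
  have hr : HasEnoughRootsOfUnity k (Monoid.exponent (H ≃ₐ[ℚ] H)) := by
    have _ : NeZero (Monoid.exponent (H ≃ₐ[ℚ] H)) := ⟨hpos.ne'⟩
    have _ : NeZero ((Monoid.exponent (H ≃ₐ[ℚ] H) : ℕ) : Ω) := ⟨Nat.cast_ne_zero.2 hpos.ne'⟩
    obtain ⟨ζ, hζ⟩ := HasEnoughRootsOfUnity.exists_primitiveRoot Ω (Monoid.exponent (H ≃ₐ[ℚ] H))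
    exact ⟨⟨ιp ζ, hζ.map_of_injective ιp.injective⟩, inferInstance⟩
  have hfin : Finite ((H ≃ₐ[ℚ] H) →* kˣ) := by
    let _ : CommGroup (H ≃ₐ[ℚ] H) :=
      { (inferInstance : Group (H ≃ₐ[ℚ] H)) with mul_comm := hc }
    exact Finite.of_equiv _ (CommGroup.monoidHom_mulEquiv_of_hasEnoughRootsOfUnity _ k).some.symm.toEquiv
  have hfC : Fintype ((H ≃ₐ[ℚ] H) →* kˣ) := Fintype.ofFinite _
  obtain ⟨σ₀⟩ : Nonempty (H →+* Ω) := ⟨(IsAlgClosed.lift (R := ℚ) (S := H) (M := Ω)).toRingHom⟩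
  have hn : (Fintype.card (H ≃ₐ[ℚ] H) : k) ≠ 0 := Nat.cast_ne_zero.2 Fintype.card_ne_zero
  have h1 : ∀ χ : (H ≃ₐ[ℚ] H) →* kˣ, eChi 1 χ unitsHom x = 0 := by
    intro χ
    refine eChi_eq_zero ιinf ιp Λ σ₀ χ 1 x ?_
    rw [eChi, map_smul, finsum_eq_sum_of_fintype, map_sum, Finset.sum_eq_zero, smul_zero]
    intro g _
    rw [map_smul, extHom_extEnd]
    have h2 : (logUnits Λ (ιp.comp σ₀)).comp (unitsHom g) =
        logUnits Λ (ιp.comp (σ₀.comp (g : H →+* H))) := rfl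
    rw [h2, hx, smul_zero]
  have h3 : ∑ χ : (H ≃ₐ[ℚ] H) →* kˣ, eChi 1 χ unitsHom x =
      (Fintype.card (H ≃ₐ[ℚ] H) : k) • x := by
    have h4 : ∀ χ : (H ≃ₐ[ℚ] H) →* kˣ, eChi 1 χ unitsHom x =
        ∑ g : H ≃ₐ[ℚ] H, ((χ g⁻¹ : kˣ) : k) • extEnd (unitsHom g) x := by
      intro χ
      rw [eChi, finsum_eq_sum_of_fintype, Nat.cast_one, inv_one, one_smul]
    simp only [h4]
    rw [Finset.sum_comm]
    simp only [← Finset.sum_smul, sum_chr hc hr, inv_eq_one]
    rw [Finset.sum_eq_single 1]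
    · rw [if_pos rfl, extEnd_one]
    · intro g _ hg
      rw [if_neg hg, zero_smul]
    · intro h
      exact absurd (Finset.mem_univ _) h
  rw [Finset.sum_eq_zero (fun χ _ ↦ h1 χ)] at h3
  exact (smul_eq_zero.1 h3.symm).resolve_left hn

end all

/-- The conjecture of Leopoldt for an abelian field `F` (the theorem of Ax and Brumer). -/
theorem leoAb {p : ℕ} [Fact p.Prime] {k : Type} [NormedField k] [NormedAlgebra ℚ_[p] k]
    [IsUltrametricDist k] [CompleteSpace k] (F : Type) [Field F] [NumberField F] [IsGalois ℚ F]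
    (hc : ∀ g h : F ≃ₐ[ℚ] F, g * h = h * g) (ιinf : AlgebraicClosure F →+* ℂ)
    (ιp : AlgebraicClosure F →+* k) (L : IwasawaLog p k) :
    LeopoldtFor ιinf ιp L Set.univ (1 : Chr F (AlgebraicClosure F) k) := by
  have hchar : CharZero k := charZero_of_padic p (k := k)
  have hchar' : CharZero (AlgebraicClosure F) := inferInstance
  have halg : Algebra.IsAlgebraic ℚ (AlgebraicClosure F) :=
    Algebra.IsAlgebraic.trans ℚ F (AlgebraicClosure F)
  let e : F ≃ₐ[ℚ] (⊥ : IntermediateField F (AlgebraicClosure F)) :=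
    ((IntermediateField.botEquiv F (AlgebraicClosure F)).symm).restrictScalars ℚ
  have hfd : FiniteDimensional ℚ (⊥ : IntermediateField F (AlgebraicClosure F)) :=
    Module.Finite.equiv e.toLinearEquiv
  have hNF : NumberField (⊥ : IntermediateField F (AlgebraicClosure F)) :=
    { to_charZero := inferInstance, to_finiteDimensional := hfd }
  have hG : IsGalois ℚ (⊥ : IntermediateField F (AlgebraicClosure F)) := IsGalois.of_algEquiv e
  refine ⟨⊥, inferInstance, ?_, 1, fun _ _ _ ↦ rfl, ?_⟩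
  · intro g
    refine ⟨fun _ x hx ↦ ?_, fun _ ↦ rfl⟩
    obtain ⟨y, rfl⟩ := IntermediateField.mem_bot.1 hx
    exact g.commutes y
  · intro x hx
    refine all_injective (H := (⊥ : IntermediateField F (AlgebraicClosure F))) ?_ ιinf ιp L _
      fun σ ↦ hx _ ⟨σ, Set.mem_univ _, rfl⟩
    intro g h
    have key := hc (e.trans (g.trans e.symm)) (e.trans (h.trans e.symm))
    ext1 y
    have h1 := DFunLike.congr_fun key (e.symm y)
    apply e.symm.injective
    simpa using h1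

end Pool.Agent.Helper17.LEO
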