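import Pool.Agent.Helper17.LEO.Ab
import Pool.Agent.Helper38.FD.Twist

/-!
# Project LEO: the trivial character

The conclusion of the `Σ`-Leopoldt conjecture for the trivial character, in terms of the units of the
base field.
-/

namespace Pool.Agent.Helper17.LEO

open NumberField Module TensorProduct
open Pool.Agent.Helper51.SigLeo Pool.Agent.Helper38.FD

set_option linter.unusedSectionVars false

section ext

variable {k : Type} [Field k]

/-- The `k`-linear extension of a homomorphism. -/
noncomputable def extMap {M M' : Type} [AddCommGroup M] [AddCommGroup M'] (f : M →+ M') :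
    (k ⊗[ℤ] M) →ₗ[k] (k ⊗[ℤ] M') :=
  f.toIntLinearMap.baseChange k

theorem extMap_tmul {M M' : Type} [AddCommGroup M] [AddCommGroup M'] (f : M →+ M') (c : k)
    (m : M) : extMap f (c ⊗ₜ[ℤ] m) = c ⊗ₜ[ℤ] f m := by
  simp [extMap, LinearMap.baseChange_tmul]

theorem extHom_extMap {M M' : Type} [AddCommGroup M] [AddCommGroup M'] (ℓ : M' →+ k)
    (f : M →+ M') (x : k ⊗[ℤ] M) : extHom ℓ (extMap f x) = extHom (ℓ.comp f) x := by
  induction x using TensorProduct.induction_on with
  | zero => simp
  | tmul c m => simp [extHom, extMap, LinearMap.baseChange_tmul, LinearMap.liftBaseChange_tmul]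
  | add x y hx hy => rw [map_add, map_add, map_add, hx, hy]

theorem extMap_extMap {M M' M'' : Type} [AddCommGroup M] [AddCommGroup M'] [AddCommGroup M'']
    (g : M' →+ M'') (f : M →+ M') (x : k ⊗[ℤ] M) :
    extMap g (extMap f x) = extMap (g.comp f) x := by
  induction x using TensorProduct.induction_on with
  | zero => simp
  | tmul c m => simp [extMap_tmul]
  | add x y hx hy => rw [map_add, map_add, map_add, hx, hy]

theorem extMap_id {M : Type} [AddCommGroup M] (x : k ⊗[ℤ] M) :
    extMap (AddMonoidHom.id M) x = x := by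
  induction x using TensorProduct.induction_on with
  | zero => simp
  | tmul c m => simp [extMap_tmul]
  | add x y hx hy => rw [map_add, hx, hy]

theorem extEnd_eq_extMap {M : Type} [AddCommGroup M] (f : M →+ M) (x : k ⊗[ℤ] M) :
    extEnd f x = extMap f x := rfl

end ext

section units

/-- The homomorphism of the groups of units induced by a homomorphism of fields. -/
noncomputable def unitsMap {A B : Type} [Field A] [Field B] (f : A →+* B) :
    Additive (𝓞 A)ˣ →+ Additive (𝓞 B)ˣ :=
  MonoidHom.toAdditive (Units.map (RingOfIntegers.mapRingHom f : 𝓞 A →* 𝓞 B))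

theorem logUnits_unitsMap {p : ℕ} {k : Type} [NormedField k] (L : IwasawaLog p k)
    {A B : Type} [Field A] [Field B] (f : A →+* B) (ι : B →+* k) :
    (logUnits L ι).comp (unitsMap f) = logUnits L (ι.comp f) := by
  ext u
  show L.toFun _ = L.toFun _
  congr 1

theorem unitsMap_comp {A B C : Type} [Field A] [Field B] [Field C] (f : A →+* B) (g : B →+* C) :
    (unitsMap g).comp (unitsMap f) = unitsMap (g.comp f) := rfl

theorem unitsMap_id {A : Type} [Field A] : unitsMap (RingHom.id A) = AddMonoidHom.id _ := rfl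

end units

variable {K Ω k : Type} [Field K] [Field Ω] [Algebra K Ω] [NormedField k] {p : ℕ}

theorem eChi_one_of_subsingleton {G M : Type} [Group G] [Subsingleton G] [AddCommGroup M]
    (χ : G →* kˣ) (a : G → M →+ M) (h1 : a 1 = AddMonoidHom.id M) (x : k ⊗[ℤ] M) :
    eChi 1 χ a x = x := by
  rw [eChi, Nat.cast_one, inv_one, one_smul, finsum_eq_single _ (1 : G) (fun g hg ↦
    absurd (Subsingleton.elim g 1) hg), inv_one, map_one, Units.val_one, one_smul, h1]
  exact extMap_id x

theorem unitsHom_one {A B : Type} [Field A] [Field B] [Algebra A B] :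
    unitsHom (1 : B ≃ₐ[A] B) = AddMonoidHom.id _ := by
  ext u
  rfl

theorem subsingleton_bot :
    Subsingleton ((⊥ : IntermediateField K Ω) ≃ₐ[K] (⊥ : IntermediateField K Ω)) := by
  constructor
  intro g h
  ext1 y
  obtain ⟨a, ha⟩ := IntermediateField.mem_bot.1 y.2
  have e : y = algebraMap K (⊥ : IntermediateField K Ω) a := Subtype.ext ha.symm
  rw [e, g.commutes, h.commutes]

/-- Transfer by an isomorphism. -/
theorem transfer {A B : Type} [Field A] [Field B] (f : A →+* B) (g : B →+* A)
    (hfg : f.comp g = RingHom.id B) (hgf : g.comp f = RingHom.id A) (ιp : Ω →+* k)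
    (L : IwasawaLog p k) (T : Set (A →+* Ω))
    (h : ∀ x : k ⊗[ℤ] Additive (𝓞 A)ˣ, (∀ σ ∈ T, extHom (logUnits L (ιp.comp σ)) x = 0) → x = 0)
    (x : k ⊗[ℤ] Additive (𝓞 B)ˣ)
    (hx : ∀ σ : B →+* Ω, σ.comp f ∈ T → extHom (logUnits L (ιp.comp σ)) x = 0) : x = 0 := by
  have h2 := h (extMap (unitsMap g) x) (by
    intro σ hσ
    rw [extHom_extMap, logUnits_unitsMap]
    refine hx (σ.comp g) ?_
    rw [RingHom.comp_assoc, hgf]
    exact hσ)
  have h3 := congrArg (extMap (unitsMap f)) h2
  rw [extMap_extMap, unitsMap_comp, hfg, unitsMap_id, extMap_id, map_zero] at h3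
  exact h3

theorem injectiveOn_of_subsingleton {H : Type} [Field H] [Algebra K H]
    [Subsingleton (H ≃ₐ[K] H)] (h1 : finrank K H = 1) (χ' : (H ≃ₐ[K] H) →* kˣ)
    (T : Set (Additive (𝓞 H)ˣ →+ k)) : InjectiveOn (finrank K H) χ' unitsHom T ↔
      ∀ x : k ⊗[ℤ] Additive (𝓞 H)ˣ, (∀ ℓ ∈ T, extHom ℓ x = 0) → x = 0 := by
  rw [h1, InjectiveOn]
  simp only [eChi_one_of_subsingleton χ' unitsHom unitsHom_one]

/-- The trivial character: the conclusion of the `Σ`-Leopoldt conjecture in terms of the units
of `K`. -/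
theorem leopoldtFor_one_iff [IsGalois K Ω] (ιinf : Ω →+* ℂ) (ιp : Ω →+* k) (L : IwasawaLog p k)
    (S : Set (K →+* ℂ)) : LeopoldtFor ιinf ιp L S (1 : Chr K Ω k) ↔
      ∀ x : k ⊗[ℤ] Additive (𝓞 K)ˣ, (∀ σ : K →+* Ω, ιinf.comp σ ∈ S →
        extHom (logUnits L (ιp.comp σ)) x = 0) → x = 0 := by
  obtain ⟨f, g, hfg, hgf, hf⟩ : ∃ (f : K →+* (⊥ : IntermediateField K Ω))
      (g : (⊥ : IntermediateField K Ω) →+* K), f.comp g = RingHom.id _ ∧
      g.comp f = RingHom.id _ ∧ algebraMap K (⊥ : IntermediateField K Ω) = f := by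
    refine ⟨algebraMap K _, (IntermediateField.botEquiv K Ω : _ →+* K), ?_, ?_, rfl⟩
    · ext1 x
      apply (IntermediateField.botEquiv K Ω).injective
      exact (IntermediateField.botEquiv K Ω).commutes _
    · ext1 x
      exact (IntermediateField.botEquiv K Ω).commutes x
  have hss := subsingleton_bot (K := K) (Ω := Ω)
  have hfr : finrank K (⊥ : IntermediateField K Ω) = 1 := IntermediateField.finrank_bot
  constructor
  · rintro ⟨H, hfd, hcut, χ', hχ', hinj⟩ x hx
    have hH : H = ⊥ := by
      rw [← InfiniteGalois.fixedField_fixingSubgroup H]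
      have h1 : H.fixingSubgroup = ⊤ := by
        rw [eq_top_iff]
        intro g _
        rw [IntermediateField.mem_fixingSubgroup_iff]
        exact (hcut g).1 rfl
      rw [h1]
      exact InfiniteGalois.fixedField_bot
    subst hH
    rw [injectiveOn_of_subsingleton hfr] at hinj
    refine transfer g f hgf hfg ιp L {σ | ιinf.comp (σ.comp f) ∈ S} (fun y hy ↦ ?_) x ?_
    · apply hinj y
      rintro ℓ ⟨σ, hσ, rfl⟩
      rw [hf] at hσ
      exact hy σ hσ
    · intro σ hσ
      apply hx
      have : (σ.comp g).comp f = σ := by rw [RingHom.comp_assoc, hgf, RingHom.comp_id]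
      rw [Set.mem_setOf_eq, this] at hσ
      exact hσ
  · intro h
    refine ⟨⊥, inferInstance, ?_, 1, fun _ _ _ ↦ rfl, ?_⟩
    · intro g
      refine ⟨fun _ x hx ↦ ?_, fun _ ↦ rfl⟩
      obtain ⟨y, rfl⟩ := IntermediateField.mem_bot.1 hx
      exact g.commutes y
    · rw [injectiveOn_of_subsingleton hfr]
      intro x hx
      refine transfer f g hfg hgf ιp L {σ | ιinf.comp σ ∈ S} h x ?_
      intro σ hσ
      refine hx _ ⟨σ, ?_, rfl⟩
      rw [hf]
      exact hσ

end Pool.Agent.Helper17.LEO
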