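import Pool.Agent.Helper17.LEO.Cyc
import Pool.Agent.Helper51.SigLeo.Bridge

/-!
# Project LEO: CM extensions

Let `N` be a totally real number field and `K` a totally complex quadratic extension of `N`. If the
conjecture of Leopoldt holds for `N`, the `Σ`-Leopoldt conjecture holds for `K`, for the trivial
character and for all the CM types of `K`.
-/

namespace Pool.Agent.Helper17.LEO

open NumberField Module TensorProduct
open Pool.Agent.Helper51.SigLeo Pool.Agent.Helper51.SixExp Pool.Agent.Helper38.FD

set_option linter.unusedSectionVars false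

/-- An embedding of a number field in `B` comes from an embedding in the algebraically closed
field `A`. -/
theorem exists_lift_emb {K A B : Type} [Field K] [NumberField K] [Field A] [CharZero A]
    [IsAlgClosed A] [Field B] [CharZero B] (ι : A →+* B) (φ : K →+* B) :
    ∃ σ : K →+* A, ι.comp σ = φ := by
  have hinj : Function.Injective (fun σ : K →+* A ↦ ι.comp σ) := by
    intro σ τ h
    ext x
    apply ι.injective
    exact RingHom.congr_fun h x
  have hfin : Finite (K →+* B) := Finite.of_equiv _ (RingHom.equivRatAlgHom (R := K) (S := B)).symm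
  have hcard : Nat.card (K →+* A) = finrank ℚ K := by
    rw [Nat.card_eq_fintype_card, NumberField.Embeddings.card]
  have hcard' : Nat.card (K →+* B) ≤ finrank ℚ K := by
    rw [Nat.card_congr (RingHom.equivRatAlgHom (R := K) (S := B))]
    exact card_algHom_le_finrank ℚ K B
  have hbij : Function.Bijective (fun σ : K →+* A ↦ ι.comp σ) :=
    hinj.bijective_of_nat_card_le (by rw [hcard]; exact hcard')
  exact hbij.2 φ

section

variable {N K : Type} [Field N] [NumberField N] [IsTotallyReal N] [Field K] [NumberField K]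
  [IsTotallyComplex K] [Algebra N K]

/-- The conjugates of a unit over `N` differ from it by a root of unity. -/
theorem conj_div_mem_torsion (h2 : finrank N K = 2) (g : K ≃ₐ[N] K) (u : (𝓞 K)ˣ) :
    Units.map (RingOfIntegers.mapRingHom (g : K →+* K) : 𝓞 K →* 𝓞 K) u * u⁻¹ ∈
      NumberField.Units.torsion K := by
  rw [NumberField.Units.mem_torsion]
  intro w
  have h3 : w ((Units.map (RingOfIntegers.mapRingHom (g : K →+* K) : 𝓞 K →* 𝓞 K) u * u⁻¹ :
      (𝓞 K)ˣ) : K) = w (g (u : K)) * (w (u : K))⁻¹ := by
    rw [Units.val_mul, map_mul, map_mul]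
    congr 1
    have h4 : ((u⁻¹ : (𝓞 K)ˣ) : K) = (u : K)⁻¹ := by
      refine eq_inv_of_mul_eq_one_left ?_
      simp
    rw [← map_inv₀]
    exact congrArg w h4
  have h5 : w (g (u : K)) = w (u : K) := by
    set φ : K →+* ℂ := w.embedding with hφ
    rw [← InfinitePlace.norm_embedding_eq, ← InfinitePlace.norm_embedding_eq, ← hφ]
    rcases eq_or_eq_conjugate h2 φ (φ.comp (g : K →+* K)) (by
      ext y
      exact (congrArg φ (g.commutes y)).symm) with h | h
    · exact congrArg norm (RingHom.congr_fun h (u : K))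
    · have := RingHom.congr_fun h (u : K)
      have h6 : φ (g (u : K)) = star (φ (u : K)) := this
      rw [h6, norm_star]
  rw [h3, h5]
  exact mul_inv_cancel₀ (by
    rw [ne_eq, map_eq_zero]
    exact NumberField.Units.coe_ne_zero u)

variable {k : Type} [Field k] [CharZero k]

theorem extEnd_conj (h2 : finrank N K = 2) (g : K ≃ₐ[N] K) (x : k ⊗[ℤ] Additive (𝓞 K)ˣ) :
    extEnd (unitsHom g) x = x := by
  induction x using TensorProduct.induction_on with
  | zero => simp
  | tmul c m =>
    rw [extEnd_eq_extMap, extMap_tmul]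
    have h3 := Pool.Agent.Helper17.SL.PkGA3.tmul_torsion c _ (conj_div_mem_torsion h2 g m.toMul)
    have h4 : unitsHom g m = Additive.ofMul (Units.map (RingOfIntegers.mapRingHom (g : K →+* K) :
        𝓞 K →* 𝓞 K) m.toMul * (m.toMul)⁻¹) + m := by
      rw [ofMul_mul, add_assoc, ofMul_inv]
      show _ = unitsHom g m + (-m + m)
      rw [neg_add_cancel, add_zero]
    rw [h4, TensorProduct.tmul_add, h3, zero_add]
  | add x y hx hy => rw [map_add, hx, hy]

end

/-- **CM extensions.** -/
theorem cm {N K Ω k : Type} [Field N] [NumberField N] [IsTotallyReal N] [Field K] [NumberField K]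
    [IsTotallyComplex K] [Algebra N K] [Field Ω] [Algebra K Ω] [IsGalois K Ω] [IsAlgClosed Ω]
    [CharZero Ω] [NormedField k] [CharZero k] {p : ℕ} (L : IwasawaLog p k)
    (h2 : finrank N K = 2)
    (hN : ∀ x : k ⊗[ℤ] Additive (𝓞 N)ˣ, (∀ τ : N →+* k, extHom (logUnits L τ) x = 0) → x = 0)
    (ιinf : Ω →+* ℂ) (ιp : Ω →+* k) (S : Set (K →+* ℂ)) (hS : IsCMType S) :
    LeopoldtFor ιinf ιp L S (1 : Chr K Ω k) := by
  classical
  rw [leopoldtFor_one_iff]
  intro x hx
  have hfd : FiniteDimensional N K := FiniteDimensional.right ℚ N K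
  have hquad : Algebra.IsQuadraticExtension N K := ⟨h2⟩
  have hG : IsGalois N K := inferInstance
  have hfG : Fintype (K ≃ₐ[N] K) := Fintype.ofFinite _
  have hinc : ∀ y : k ⊗[ℤ] Additive (𝓞 K)ˣ, extMap (unitsMap (algebraMap N K))
      (extMap (normUnits N K) y) = (Fintype.card (K ≃ₐ[N] K) : k) • y := by
    intro y
    rw [extMap_extMap]
    have h6 : (unitsMap (algebraMap N K)).comp (normUnits N K) =
        ∑ g : K ≃ₐ[N] K, unitsHom g := by
      apply AddMonoidHom.ext
      intro u
      rw [AddMonoidHom.comp_apply, incl_norm, AddMonoidHom.finsetSum_apply]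
    rw [h6, extMap_sum]
    simp only [← extEnd_eq_extMap, extEnd_conj h2, Finset.sum_const, Finset.card_univ]
    rw [Nat.cast_smul_eq_nsmul]
  have h3 : extMap (normUnits N K) x = 0 := by
    apply hN
    intro τ
    obtain ⟨τ', rfl⟩ := exists_lift_emb ιp τ
    obtain ⟨φ, hφ, hφ'⟩ := hS.exists_mem (ιinf.comp τ')
    obtain ⟨σ, rfl⟩ := exists_lift_emb ιinf φ
    have hσ : σ.comp (algebraMap N K) = τ' := by
      ext y
      apply ιinf.injective
      exact RingHom.congr_fun hφ' y
    have h4 := congrArg (extHom (logUnits L (ιp.comp σ))) (hinc x)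
    rw [map_smul, hx σ hφ, smul_zero, extHom_extMap, logUnits_unitsMap, RingHom.comp_assoc,
      hσ] at h4
    exact h4
  have h5 := hinc x
  rw [h3, map_zero] at h5
  exact (smul_eq_zero.1 h5.symm).resolve_left (Nat.cast_ne_zero.2 Fintype.card_ne_zero)

end Pool.Agent.Helper17.LEO
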