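import Pool.Agent.Helper17.LEO.Base

/-!
# Project LEO: cyclic extensions of prime degree

If `N/K` is cyclic of prime degree, the injectivity of the `p`-adic logarithms on `k ⊗ (𝓞_N)ˣ`
follows from the conclusions of the conjecture for the trivial character and for the characters
which cut out `N`.
-/

namespace Pool.Agent.Helper17.LEO

open NumberField Module TensorProduct
open Pool.Agent.Helper51.SigLeo Pool.Agent.Helper38.FD

set_option linter.unusedSectionVars false

section

variable {A B : Type} [Field A] [Field B] [NumberField A] [NumberField B] [Algebra A B]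

/-- The norm on the units. -/
noncomputable def normUnits (A B : Type) [Field A] [Field B] [NumberField A] [NumberField B]
    [Algebra A B] : Additive (𝓞 B)ˣ →+ Additive (𝓞 A)ˣ :=
  MonoidHom.toAdditive (Units.map (RingOfIntegers.norm A : 𝓞 B →* 𝓞 A))

/-- The underlying element of the field. -/
def uval (u : Additive (𝓞 B)ˣ) : B := ((u.toMul : (𝓞 B)ˣ) : B)

theorem uval_injective : Function.Injective (uval (B := B)) := by
  intro u v h
  exact congrArg Additive.ofMul (NumberField.Units.coe_injective B h)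

theorem uval_sum {ι : Type} (s : Finset ι) (f : ι → Additive (𝓞 B)ˣ) :
    uval (∑ i ∈ s, f i) = ∏ i ∈ s, uval (f i) := by
  classical
  induction s using Finset.induction_on with
  | empty => simp [uval]
  | insert i s hi ih =>
    rw [Finset.sum_insert hi, Finset.prod_insert hi, ← ih]
    simp [uval]

theorem incl_norm [IsGalois A B] [Fintype (B ≃ₐ[A] B)] (u : Additive (𝓞 B)ˣ) :
    unitsMap (algebraMap A B) (normUnits A B u) = ∑ g : B ≃ₐ[A] B, unitsHom g u := by
  apply uval_injective
  rw [uval_sum]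
  have h1 := Algebra.norm_eq_prod_automorphisms A (uval u)
  have h2 : uval (unitsMap (algebraMap A B) (normUnits A B u)) =
      algebraMap A B (Algebra.norm A (uval u)) := rfl
  rw [h2, h1]
  refine Finset.prod_congr ?_ fun g _ ↦ rfl
  ext g
  simp

end

section

variable {K Ω k : Type} [Field K] [Field Ω] [Algebra K Ω] [NormedField k] {p : ℕ}

/-- The logarithms of the conjugates. -/
theorem extHom_eChi_eq_zero {H : Type} [Field H] [Algebra K H] [Fintype (H ≃ₐ[K] H)]
    (ιp : Ω →+* k) (L : IwasawaLog p k) (n : ℕ) (χ : (H ≃ₐ[K] H) →* kˣ)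
    (x : k ⊗[ℤ] Additive (𝓞 H)ˣ) (hx : ∀ σ : H →+* Ω, extHom (logUnits L (ιp.comp σ)) x = 0)
    (σ : H →+* Ω) : extHom (logUnits L (ιp.comp σ)) (eChi n χ unitsHom x) = 0 := by
  rw [eChi, map_smul, finsum_eq_sum_of_fintype, map_sum, Finset.sum_eq_zero, smul_zero]
  intro g _
  rw [map_smul, extEnd_eq_extMap, extHom_extMap]
  have h2 : (logUnits L (ιp.comp σ)).comp (unitsHom g) =
      logUnits L (ιp.comp (σ.comp (g : H →+* H))) := rfl
  rw [h2, hx, smul_zero]

theorem extEnd_unitsHom_one {H : Type} [Field H] [Algebra K H] (x : k ⊗[ℤ] Additive (𝓞 H)ˣ) :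
    extEnd (unitsHom (1 : H ≃ₐ[K] H)) x = x := by
  rw [unitsHom_one]
  exact extMap_id x

/-- If all the `χ`-parts of `x` are zero then `x = 0`. -/
theorem eq_zero_of_eChi {H : Type} [Field H] [Algebra K H] [Fintype (H ≃ₐ[K] H)] [CharZero k]
    (hc : ∀ g h : H ≃ₐ[K] H, g * h = h * g)
    (hr : HasEnoughRootsOfUnity k (Monoid.exponent (H ≃ₐ[K] H)))
    (n : ℕ) (hn : n ≠ 0) (x : k ⊗[ℤ] Additive (𝓞 H)ˣ)
    (hx : ∀ χ : (H ≃ₐ[K] H) →* kˣ, eChi n χ unitsHom x = 0) : x = 0 := by
  classical
  have hfin : Finite ((H ≃ₐ[K] H) →* kˣ) := by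
    let _ : CommGroup (H ≃ₐ[K] H) :=
      { (inferInstance : Group (H ≃ₐ[K] H)) with mul_comm := hc }
    exact Finite.of_equiv _
      (CommGroup.monoidHom_mulEquiv_of_hasEnoughRootsOfUnity _ k).some.symm.toEquiv
  have hfC : Fintype ((H ≃ₐ[K] H) →* kˣ) := Fintype.ofFinite _
  have hn0 : (Fintype.card (H ≃ₐ[K] H) : k) ≠ 0 := Nat.cast_ne_zero.2 Fintype.card_ne_zero
  have h3 : ∑ χ : (H ≃ₐ[K] H) →* kˣ, eChi n χ unitsHom x =
      (n : k)⁻¹ • (Fintype.card (H ≃ₐ[K] H) : k) • x := by
    have h4 : ∀ χ : (H ≃ₐ[K] H) →* kˣ, eChi n χ unitsHom x =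
        (n : k)⁻¹ • ∑ g : H ≃ₐ[K] H, ((χ g⁻¹ : kˣ) : k) • extEnd (unitsHom g) x := by
      intro χ
      rw [eChi, finsum_eq_sum_of_fintype]
    simp only [h4]
    rw [← Finset.smul_sum, Finset.sum_comm]
    simp only [← Finset.sum_smul, sum_chr hc hr, inv_eq_one]
    rw [Finset.sum_eq_single 1]
    · rw [if_pos rfl, extEnd_unitsHom_one]
    · intro g _ hg
      rw [if_neg hg, zero_smul]
    · intro h
      exact absurd (Finset.mem_univ _) h
  rw [Finset.sum_eq_zero (fun χ _ ↦ hx χ)] at h3
  have h5 := (smul_eq_zero.1 h3.symm).resolve_left (inv_ne_zero (Nat.cast_ne_zero.2 hn))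
  exact (smul_eq_zero.1 h5).resolve_left hn0

theorem enough_roots [IsAlgClosed Ω] [CharZero Ω] (ιp : Ω →+* k) {G : Type} [Group G] [Finite G] :
    HasEnoughRootsOfUnity k (Monoid.exponent G) := by
  have hf : Fintype G := Fintype.ofFinite G
  have hpos : 0 < Monoid.exponent G := Monoid.exponent_pos_of_exists _
    Fintype.card_pos fun g ↦ pow_card_eq_one
  have _ : NeZero (Monoid.exponent G) := ⟨hpos.ne'⟩
  have _ : NeZero ((Monoid.exponent G : ℕ) : Ω) := ⟨Nat.cast_ne_zero.2 hpos.ne'⟩
  obtain ⟨ζ, hζ⟩ := HasEnoughRootsOfUnity.exists_primitiveRoot Ω (Monoid.exponent G)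
  exact ⟨⟨ιp ζ, hζ.map_of_injective ιp.injective⟩, inferInstance⟩

end

theorem exists_ext {A B C : Type} [Field A] [Field B] [Field C] [Algebra A B]
    [Algebra.IsAlgebraic A B] [IsAlgClosed C] (σ : A →+* C) :
    ∃ τ : B →+* C, τ.comp (algebraMap A B) = σ := by
  let _ : Algebra A C := σ.toAlgebra
  let f : B →ₐ[A] C := IsAlgClosed.lift
  exact ⟨f, f.comp_algebraMap⟩

theorem extHom_sum {k : Type} [Field k] {M ι : Type} [AddCommGroup M] (s : Finset ι)
    (f : ι → M →+ k) (x : k ⊗[ℤ] M) : extHom (∑ i ∈ s, f i) x = ∑ i ∈ s, extHom (f i) x := by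
  induction x using TensorProduct.induction_on with
  | zero => simp
  | tmul c m => simp [extHom, LinearMap.liftBaseChange_tmul, Finset.mul_sum]
  | add x y hx hy => simp only [map_add, hx, hy, Finset.sum_add_distrib]

theorem extMap_sum {k : Type} [Field k] {M M' ι : Type} [AddCommGroup M] [AddCommGroup M']
    (s : Finset ι) (f : ι → M →+ M') (x : k ⊗[ℤ] M) :
    extMap (∑ i ∈ s, f i) x = ∑ i ∈ s, extMap (f i) x := by
  induction x using TensorProduct.induction_on with
  | zero => simp
  | tmul c m => simp [extMap_tmul, TensorProduct.tmul_sum]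
  | add x y hx hy => simp only [map_add, hx, hy, Finset.sum_add_distrib]

/-- **Cyclic extensions of prime degree.** -/
theorem cyc {K Ω k : Type} [Field K] [NumberField K] [Field Ω] [Algebra K Ω] [IsAlgClosed Ω]
    [IsGalois K Ω] [NormedField k] [CharZero k] {p q : ℕ} (hq : q.Prime)
    (ιinf : Ω →+* ℂ) (ιp : Ω →+* k) (L : IwasawaLog p k) (N : IntermediateField K Ω)
    (hN : IsCyclicOf q K N) (h1 : LeopoldtFor ιinf ιp L Set.univ (1 : Chr K Ω k))
    (h : ∀ φ : Chr K Ω k, CutsOut φ N → LeopoldtFor ιinf ιp L Set.univ φ)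
    (x : k ⊗[ℤ] Additive (𝓞 N)ˣ)
    (hx : ∀ σ : N →+* Ω, extHom (logUnits L (ιp.comp σ)) x = 0) : x = 0 := by
  classical
  obtain ⟨hfr, hG, hcyc⟩ := hN
  have hfd : FiniteDimensional K N := FiniteDimensional.of_finrank_pos (by
    rw [hfr]; exact hq.pos)
  have hNF : NumberField N := NumberField.of_module_finite K N
  have hchar : CharZero Ω := charZero_of_injective_algebraMap (algebraMap K Ω).injective
  have hfG : Fintype (N ≃ₐ[K] N) := Fintype.ofFinite _
  have hcard : Nat.card (N ≃ₐ[K] N) = q := by rw [IsGalois.card_aut_eq_finrank, hfr]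
  have hc : ∀ g h : N ≃ₐ[K] N, g * h = h * g := by
    let _ := IsCyclic.commGroup (α := N ≃ₐ[K] N)
    intro g h
    exact mul_comm g h
  refine eq_zero_of_eChi hc (enough_roots ιp) (finrank K N) (by rw [hfr]; exact hq.ne_zero) x
    fun ψ ↦ ?_
  by_cases hψ : ψ = 1
  · subst hψ
    have h2 := (leopoldtFor_one_iff ιinf ιp L Set.univ).1 h1
    have h3 : extMap (normUnits K N) x = 0 := by
      apply h2
      intro σ _
      obtain ⟨τ, hτ⟩ := exists_ext (B := N) σ
      rw [extHom_extMap]
      have h4 : (logUnits L (ιp.comp σ)).comp (normUnits K N) =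
          ∑ g : N ≃ₐ[K] N, logUnits L (ιp.comp (τ.comp (g : N →+* N))) := by
        rw [← hτ, ← RingHom.comp_assoc, ← logUnits_unitsMap]
        apply AddMonoidHom.ext
        intro u
        rw [AddMonoidHom.comp_apply, AddMonoidHom.comp_apply, incl_norm, map_sum,
          AddMonoidHom.finsetSum_apply]
        rfl
      rw [h4, extHom_sum]
      exact Finset.sum_eq_zero fun g _ ↦ hx _
    have h5 : eChi (finrank K N) (1 : (N ≃ₐ[K] N) →* kˣ) unitsHom x =
        ((finrank K N : ℕ) : k)⁻¹ • extMap (unitsMap (algebraMap K N))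
          (extMap (normUnits K N) x) := by
      rw [eChi, finsum_eq_sum_of_fintype, extMap_extMap]
      have h6 : (unitsMap (algebraMap K N)).comp (normUnits K N) =
          ∑ g : N ≃ₐ[K] N, unitsHom g := by
        apply AddMonoidHom.ext
        intro u
        rw [AddMonoidHom.comp_apply, incl_norm, AddMonoidHom.finsetSum_apply]
      rw [h6, extMap_sum]
      congr 1
      refine Finset.sum_congr rfl fun g _ ↦ ?_
      rw [MonoidHom.one_apply, Units.val_one, one_smul, extEnd_eq_extMap]
    rw [h5, h3, map_zero, smul_zero]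
  · have hinj : Function.Injective ψ := by
      rw [← MonoidHom.ker_eq_bot_iff]
      have _ : Fact (Nat.card (N ≃ₐ[K] N)).Prime := ⟨by rw [hcard]; exact hq⟩
      rcases Subgroup.eq_bot_or_eq_top_of_prime_card ψ.ker with h2 | h2
      · exact h2
      · exfalso
        apply hψ
        ext g
        have : g ∈ ψ.ker := by rw [h2]; exact Subgroup.mem_top g
        rw [MonoidHom.mem_ker] at this
        rw [this]
        rfl
    have hres : ∀ (g : Ω ≃ₐ[K] Ω) (y : N), g y = (AlgEquiv.restrictNormalHom N g y : N) :=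
      fun g y ↦ (AlgEquiv.restrictNormal_commutes g N y).symm
    have hcut : CutsOut (ψ.comp (AlgEquiv.restrictNormalHom (F := K) (K₁ := Ω) N)) N := by
      intro g
      rw [MonoidHom.comp_apply]
      constructor
      · intro h2 y hy
        have h3 : AlgEquiv.restrictNormalHom N g = 1 := hinj (by rw [h2, map_one])
        have h4 := hres g ⟨y, hy⟩
        rw [h3] at h4
        exact h4
      · intro h2
        have h3 : AlgEquiv.restrictNormalHom N g = 1 := by
          ext y
          rw [← hres g y]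
          exact h2 y y.2
        rw [h3, map_one]
    obtain ⟨H, hfdH, hcutH, χ', hχ', hI⟩ := h _ hcut
    have hH : H = N := by
      have e1 := ker_eq hcut
      have e2 := ker_eq hcutH
      rw [← InfiniteGalois.fixedField_fixingSubgroup H,
        ← InfiniteGalois.fixedField_fixingSubgroup N, ← e1, ← e2]
    subst hH
    have hχψ : χ' = ψ := by
      ext g
      obtain ⟨g', hg'⟩ := exists_lift g
      rw [← hχ' g' g hg', MonoidHom.comp_apply]
      have h3 : AlgEquiv.restrictNormalHom H g' = g := by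
        ext y
        rw [← hres g' y]
        exact hg' y
      rw [h3]
    rw [hχψ] at hI
    apply hI
    rintro ℓ ⟨σ, _, rfl⟩
    exact extHom_eChi_eq_zero ιp L _ ψ x hx σ

end Pool.Agent.Helper17.LEO
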