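import Pool.Agent.Helper17.LEO.Cyc
import Pool.Agent.Helper22.PP.DPRD

/-!
# Project LEO: abelian extensions

Let `B/K` be a finite abelian extension in `Ω` and let `x` be an element of `k ⊗ (𝓞_B)ˣ` which is
killed by all the `p`-adic logarithms. If the conclusion of the conjecture holds for the character `χ`
of `Gal(Ω/K)` which is trivial on `Gal(Ω/B)`, then the `χ`-part of `x` is zero.
-/

namespace Pool.Agent.Helper17.LEO

open NumberField Module TensorProduct
open Pool.Agent.Helper51.SigLeo Pool.Agent.Helper38.FD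

set_option linter.unusedSectionVars false

/-- The sum `∑ χ(g⁻¹) g x`. -/
noncomputable def eSum {K H k : Type} [Field K] [Field H] [Algebra K H] [Field k]
    [Fintype (H ≃ₐ[K] H)] (χ : (H ≃ₐ[K] H) →* kˣ) (x : k ⊗[ℤ] Additive (𝓞 H)ˣ) :
    k ⊗[ℤ] Additive (𝓞 H)ˣ :=
  ∑ g : H ≃ₐ[K] H, ((χ g⁻¹ : kˣ) : k) • extMap (unitsHom g) x

theorem eChi_eq_eSum {K H k : Type} [Field K] [Field H] [Algebra K H] [Field k]
    [Fintype (H ≃ₐ[K] H)] (n : ℕ) (χ : (H ≃ₐ[K] H) →* kˣ) (x : k ⊗[ℤ] Additive (𝓞 H)ˣ) :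
    eChi n χ unitsHom x = (n : k)⁻¹ • eSum χ x := by
  rw [eChi, finsum_eq_sum_of_fintype]
  rfl

section tower

variable {K A B k : Type} [Field K] [NumberField K] [Field A] [NumberField A] [Field B]
  [NumberField B] [Algebra K A] [Algebra K B] [Algebra A B] [IsScalarTower K A B]
  [Field k] [CharZero k] [Fintype (A ≃ₐ[K] A)] [Fintype (B ≃ₐ[K] B)] [Fintype (B ≃ₐ[A] B)]

/-- `e_χ (incl (N x)) = [B : A] e_χ x`, if `χ` is trivial on `Gal(B/A)`. -/
theorem eSum_incl_norm [IsGalois A B] (χ : (B ≃ₐ[K] B) →* kˣ)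
    (h : ∀ τ : B ≃ₐ[A] B, χ (τ.restrictScalars K) = 1) (x : k ⊗[ℤ] Additive (𝓞 B)ˣ) :
    eSum χ (extMap (unitsMap (algebraMap A B)) (extMap (normUnits A B) x)) =
      (Fintype.card (B ≃ₐ[A] B) : k) • eSum χ x := by
  have h6 : (unitsMap (algebraMap A B)).comp (normUnits A B) =
      ∑ τ : B ≃ₐ[A] B, unitsHom τ := by
    apply AddMonoidHom.ext
    intro u
    rw [AddMonoidHom.comp_apply, incl_norm, AddMonoidHom.finsetSum_apply]
  have h8 : eSum χ (∑ τ : B ≃ₐ[A] B, extMap (unitsHom τ) x) =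
      ∑ τ : B ≃ₐ[A] B, ∑ g : B ≃ₐ[K] B, ((χ g⁻¹ : kˣ) : k) •
        extMap (unitsHom g) (extMap (unitsHom τ) x) := by
    unfold eSum
    rw [Finset.sum_comm]
    refine Finset.sum_congr rfl fun g _ ↦ ?_
    rw [map_sum, Finset.smul_sum]
  rw [extMap_extMap, h6, extMap_sum, h8]
  have h7 : ∀ τ : B ≃ₐ[A] B, ∑ g : B ≃ₐ[K] B, ((χ g⁻¹ : kˣ) : k) •
      extMap (unitsHom g) (extMap (unitsHom τ) x) =
      ∑ g : B ≃ₐ[K] B, ((χ g⁻¹ : kˣ) : k) • extMap (unitsHom g) x := by
    intro τ
    refine Fintype.sum_equiv (Equiv.mulRight (τ.restrictScalars K)) _ _ fun g ↦ ?_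
    rw [Equiv.coe_mulRight, mul_inv_rev, map_mul, map_inv χ (τ.restrictScalars K), h τ, inv_one,
      one_mul, extMap_extMap]
    rfl
  rw [Finset.sum_congr rfl fun τ _ ↦ h7 τ, Finset.sum_const, Finset.card_univ,
    ← Nat.cast_smul_eq_nsmul k]
  rfl

/-- Elements which come from `A`. -/
theorem eSum_incl (r : (B ≃ₐ[K] B) →* (A ≃ₐ[K] A)) (hr : Function.Surjective r)
    (hr' : ∀ (g : B ≃ₐ[K] B) (a : A), g (algebraMap A B a) = algebraMap A B (r g a))
    (χ : (B ≃ₐ[K] B) →* kˣ) (χ' : (A ≃ₐ[K] A) →* kˣ) (h : ∀ g, χ g = χ' (r g))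
    (y : k ⊗[ℤ] Additive (𝓞 A)ˣ) (hy : eSum χ' y = 0) :
    eSum χ (extMap (unitsMap (algebraMap A B)) y) = 0 := by
  classical
  have h1 : ∀ g : B ≃ₐ[K] B, ((χ g⁻¹ : kˣ) : k) •
      extMap (unitsHom g) (extMap (unitsMap (algebraMap A B)) y) =
      extMap (unitsMap (algebraMap A B)) (((χ' (r g)⁻¹ : kˣ) : k) • extMap (unitsHom (r g)) y) := by
    intro g
    have h2 : (unitsHom g).comp (unitsMap (algebraMap A B)) =
        (unitsMap (algebraMap A B)).comp (unitsHom (r g)) := by
      apply AddMonoidHom.ext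
      intro u
      apply uval_injective
      exact hr' g (uval u)
    rw [map_smul, extMap_extMap, extMap_extMap, h, map_inv r, h2]
  unfold eSum
  rw [Finset.sum_congr rfl fun g _ ↦ h1 g]
  rw [← map_sum]
  have h2 : ∑ g : B ≃ₐ[K] B, ((χ' (r g)⁻¹ : kˣ) : k) • extMap (unitsHom (r g)) y =
      (Finset.univ.filter fun g : B ≃ₐ[K] B ↦ r g = 1).card • ∑ g : A ≃ₐ[K] A, ((χ' g⁻¹ : kˣ) : k) • extMap (unitsHom g) y := by
    rw [Finset.sum_comp (fun g : A ≃ₐ[K] A ↦ ((χ' g⁻¹ : kˣ) : k) • extMap (unitsHom g) y) r]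
    rw [Finset.smul_sum]
    have h3 : Finset.image r Finset.univ = Finset.univ := by
      ext g
      simp only [Finset.mem_image, Finset.mem_univ, true_and, iff_true]
      exact hr g
    rw [h3]
    refine Finset.sum_congr rfl fun g _ ↦ ?_
    congr 1
    exact MonoidHom.card_fiber_eq_of_mem_range r (hr g) (hr 1)
  rw [h2]
  have h3 : ∑ g : A ≃ₐ[K] A, ((χ' g⁻¹ : kˣ) : k) • extMap (unitsHom g) y = 0 := hy
  rw [h3, smul_zero, map_zero]

end tower

/-- The `p`-adic logarithms, for all the embeddings of `H` in `Ω`, are jointly injective on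
`k ⊗ (𝓞_H)ˣ`. -/
def Leo {p : ℕ} {Ω k : Type} [Field Ω] [NormedField k] (ιp : Ω →+* k) (L : IwasawaLog p k)
    (H : Type) [Field H] : Prop :=
  ∀ x : k ⊗[ℤ] Additive (𝓞 H)ˣ, (∀ σ : H →+* Ω, extHom (logUnits L (ιp.comp σ)) x = 0) → x = 0

/-- The norm of an element killed by all the logarithms is killed by all the logarithms. -/
theorem norm_killed {A B Ω k : Type} [Field A] [NumberField A] [Field B] [NumberField B]
    [Algebra A B] [IsGalois A B] [Field Ω] [IsAlgClosed Ω] [NormedField k] {p : ℕ} (ιp : Ω →+* k)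
    (L : IwasawaLog p k) (x : k ⊗[ℤ] Additive (𝓞 B)ˣ)
    (hx : ∀ σ : B →+* Ω, extHom (logUnits L (ιp.comp σ)) x = 0) (σ : A →+* Ω) :
    extHom (logUnits L (ιp.comp σ)) (extMap (normUnits A B) x) = 0 := by
  classical
  have hfd : FiniteDimensional A B := FiniteDimensional.right ℚ A B
  have hfG : Fintype (B ≃ₐ[A] B) := Fintype.ofFinite _
  obtain ⟨τ, hτ⟩ := exists_ext (B := B) σ
  rw [extHom_extMap]
  have h4 : (logUnits L (ιp.comp σ)).comp (normUnits A B) =
      ∑ g : B ≃ₐ[A] B, logUnits L (ιp.comp (τ.comp (g : B →+* B))) := by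
    rw [← hτ, ← RingHom.comp_assoc, ← logUnits_unitsMap]
    apply AddMonoidHom.ext
    intro u
    rw [AddMonoidHom.comp_apply, AddMonoidHom.comp_apply, incl_norm, map_sum,
      AddMonoidHom.finsetSum_apply]
    rfl
  rw [h4, extHom_sum]
  exact Finset.sum_eq_zero fun g _ ↦ hx _

section

variable {K Ω k : Type} [Field K] [NumberField K] [Field Ω] [Algebra K Ω] [IsAlgClosed Ω]
  [IsGalois K Ω] [NormedField k] [CharZero k] {p : ℕ}

theorem restrict_apply (B : IntermediateField K Ω) [Normal K B] (g : Ω ≃ₐ[K] Ω) (y : B) :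
    g y = (AlgEquiv.restrictNormalHom B g y : B) :=
  (AlgEquiv.restrictNormal_commutes g B y).symm

theorem restrict_eq_one_iff (B : IntermediateField K Ω) [Normal K B] (g : Ω ≃ₐ[K] Ω) :
    AlgEquiv.restrictNormalHom B g = 1 ↔ ∀ x ∈ B, g x = x := by
  constructor
  · intro h x hx
    have h1 := restrict_apply B g ⟨x, hx⟩
    rw [h] at h1
    exact h1
  · intro h
    ext y
    rw [← restrict_apply B g y]
    exact h y y.2

/-- **The key lemma.** -/
theorem eSum_of_leopoldtFor (ιinf : Ω →+* ℂ) (ιp : Ω →+* k) (L : IwasawaLog p k)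
    (B : IntermediateField K Ω) [FiniteDimensional K B] [IsGalois K B] [Fintype (B ≃ₐ[K] B)]
    (ψ : (B ≃ₐ[K] B) →* kˣ)
    (h : LeopoldtFor ιinf ιp L Set.univ (ψ.comp (AlgEquiv.restrictNormalHom (F := K) (K₁ := Ω) B)))
    (x : k ⊗[ℤ] Additive (𝓞 B)ˣ)
    (hx : ∀ σ : B →+* Ω, extHom (logUnits L (ιp.comp σ)) x = 0) : eSum ψ x = 0 := by
  classical
  obtain ⟨A, hfdA, hcutA, χ', hχ', hI⟩ := h
  have hA : IsGalois K A := isGalois_of_cutsOut hcutA
  have hle : A ≤ B := Pool.Agent.Helper22.PP.le_of_fix fun g hg ↦ (hcutA g).1 (by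
    rw [MonoidHom.comp_apply, (restrict_eq_one_iff B g).2 hg, map_one])
  let iAB : Algebra A B := (IntermediateField.inclusion hle).toRingHom.toAlgebra
  have hst : IsScalarTower K A B := IsScalarTower.of_algebraMap_eq fun _ ↦ rfl
  have hNA : NumberField A := NumberField.of_module_finite K A
  have hNB : NumberField B := NumberField.of_module_finite K B
  have hGAB : IsGalois A B := IsGalois.tower_top_of_isGalois K A B
  have hfAB : FiniteDimensional A B := FiniteDimensional.right ℚ A B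
  have hf1 : Fintype (A ≃ₐ[K] A) := Fintype.ofFinite _
  have hf2 : Fintype (B ≃ₐ[A] B) := Fintype.ofFinite _
  set r : (B ≃ₐ[K] B) →* (A ≃ₐ[K] A) := AlgEquiv.restrictNormalHom (F := K) (K₁ := B) A with hr
  have hrs : Function.Surjective r := AlgEquiv.restrictNormalHom_surjective (F := K) (K₁ := A) B
  have hr' : ∀ (g : B ≃ₐ[K] B) (a : A), g (algebraMap A B a) = algebraMap A B (r g a) :=
    fun g a ↦ (AlgEquiv.restrictNormal_commutes g A a).symm
  have hψ : ∀ g, ψ g = χ' (r g) := by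
    intro g
    obtain ⟨g', hg'⟩ := exists_lift g
    have h1 : AlgEquiv.restrictNormalHom B g' = g := by
      ext y
      rw [← restrict_apply B g' y]
      exact hg' y
    rw [← hχ' g' (r g), MonoidHom.comp_apply, h1]
    intro a
    have h2 := hg' (algebraMap A B a)
    rw [hr' g a] at h2
    exact h2
  have hy := norm_killed (A := A) ιp L x hx
  have h0 : eSum χ' (extMap (normUnits A B) x) = 0 := by
    have h1 := hI (extMap (normUnits A B) x) (by
      rintro ℓ ⟨σ, _, rfl⟩
      exact extHom_eChi_eq_zero ιp L _ χ' _ hy σ)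
    rw [eChi_eq_eSum] at h1
    exact (smul_eq_zero.1 h1).resolve_left (inv_ne_zero (Nat.cast_ne_zero.2 finrank_pos.ne'))
  have h1 := eSum_incl r hrs hr' ψ χ' hψ _ h0
  rw [eSum_incl_norm ψ (fun τ ↦ by
    rw [hψ]
    have h2 : r (τ.restrictScalars K) = 1 := by
      ext a
      have h3 := hr' (τ.restrictScalars K) a
      have h4 : (τ.restrictScalars K) (algebraMap A B a) = algebraMap A B a := τ.commutes a
      rw [h4] at h3
      exact congrArg Subtype.val ((algebraMap A B).injective h3).symm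
    rw [h2, map_one])] at h1
  exact (smul_eq_zero.1 h1).resolve_left (Nat.cast_ne_zero.2 Fintype.card_ne_zero)

/-- An abelian extension: the conclusion for all the characters. -/
theorem leo_of_all (ιp : Ω →+* k) (B : IntermediateField K Ω) [FiniteDimensional K B] [IsGalois K B]
    (hc : ∀ g h : B ≃ₐ[K] B, g * h = h * g) (x : k ⊗[ℤ] Additive (𝓞 B)ˣ)
    (h : ∀ (_ : Fintype (B ≃ₐ[K] B)) (ψ : (B ≃ₐ[K] B) →* kˣ), eSum ψ x = 0) : x = 0 := by
  classical
  have hf : Fintype (B ≃ₐ[K] B) := Fintype.ofFinite _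
  have hchar : CharZero Ω := charZero_of_injective_algebraMap (algebraMap K Ω).injective
  refine eq_zero_of_eChi hc (enough_roots ιp) 1 one_ne_zero x fun ψ ↦ ?_
  rw [eChi_eq_eSum, h hf ψ, smul_zero]

/-- A nontrivial character of `Gal(N/K)` cuts out `N` if `[N : K]` is prime. -/
theorem cutsOut_of_ne_one {q : ℕ} (hq : q.Prime) (N : IntermediateField K Ω) [IsGalois K N]
    (hN : finrank K N = q) (ψ : (N ≃ₐ[K] N) →* kˣ) (hψ : ψ ≠ 1) :
    CutsOut (ψ.comp (AlgEquiv.restrictNormalHom (F := K) (K₁ := Ω) N)) N := by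
  have hfd : FiniteDimensional K N := FiniteDimensional.of_finrank_pos (by
    rw [hN]; exact hq.pos)
  have hcard : Nat.card (N ≃ₐ[K] N) = q := by rw [IsGalois.card_aut_eq_finrank, hN]
  have hinj : Function.Injective ψ := by
    rw [← MonoidHom.ker_eq_bot_iff]
    have _ : Fact (Nat.card (N ≃ₐ[K] N)).Prime := ⟨by rw [hcard]; exact hq⟩
    rcases Subgroup.eq_bot_or_eq_top_of_prime_card ψ.ker with h2 | h2
    · exact h2
    · exfalso
      apply hψ
      ext g
      have : g ∈ ψ.ker := by rw [h2]; exact Subgroup.mem_top g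
      rw [MonoidHom.mem_ker] at this
      rw [this]
      rfl
  intro g
  rw [MonoidHom.comp_apply, ← restrict_eq_one_iff N g]
  constructor
  · intro h2
    exact hinj (by rw [h2, map_one])
  · intro h2
    rw [h2, map_one]

/-- **The compositum `M N`.** -/
theorem cycM {q : ℕ} (hq : q.Prime) (ιinf : Ω →+* ℂ) (ιp : Ω →+* k) (L : IwasawaLog p k)
    (M N : IntermediateField K Ω) [FiniteDimensional K M] [IsGalois K M]
    (hMc : ∀ g h : M ≃ₐ[K] M, g * h = h * g) (hcop : (finrank K M).Coprime q)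
    [IsGalois K N] (hN : finrank K N = q) (hM : Leo ιp L M)
    (h : ∀ χ₀ φ : Chr K Ω k, (∀ g : Ω ≃ₐ[K] Ω, (∀ x ∈ M, g x = x) → χ₀ g = 1) → CutsOut φ N →
      LeopoldtFor ιinf ιp L Set.univ (χ₀ * φ)) : Leo ιp L (M ⊔ N : IntermediateField K Ω) := by
  classical
  have hfdN : FiniteDimensional K N := FiniteDimensional.of_finrank_pos (by
    rw [hN]; exact hq.pos)
  have hcardN : Nat.card (N ≃ₐ[K] N) = q := by rw [IsGalois.card_aut_eq_finrank, hN]
  have hcardM : Nat.card (M ≃ₐ[K] M) = finrank K M := IsGalois.card_aut_eq_finrank K M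
  have hNc : ∀ g h : N ≃ₐ[K] N, g * h = h * g := by
    have _ : Fact q.Prime := ⟨hq⟩
    have _ : IsCyclic (N ≃ₐ[K] N) := isCyclic_of_prime_card hcardN
    let _ := IsCyclic.commGroup (α := N ≃ₐ[K] N)
    intro g h
    exact mul_comm g h
  set B : IntermediateField K Ω := M ⊔ N with hB
  have hMB : M ≤ B := le_sup_left
  have hNB : N ≤ B := le_sup_right
  have hGB : IsGalois K B := inferInstance
  have hfdB : FiniteDimensional K B := inferInstance
  -- restriction of `g` is trivial on `B` iff it is trivial on `M` and on `N`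
  have hfix : ∀ g : Ω ≃ₐ[K] Ω, AlgEquiv.restrictNormalHom M g = 1 →
      AlgEquiv.restrictNormalHom N g = 1 → AlgEquiv.restrictNormalHom B g = 1 := by
    intro g h1 h2
    rw [restrict_eq_one_iff] at h1 h2 ⊢
    exact fix_sup g h1 h2
  have hBM : ∀ g : Ω ≃ₐ[K] Ω, AlgEquiv.restrictNormalHom B g = 1 →
      AlgEquiv.restrictNormalHom M g = 1 := by
    intro g h1
    rw [restrict_eq_one_iff] at h1 ⊢
    exact fun x hx ↦ h1 x (hMB hx)
  have hc : ∀ g h : B ≃ₐ[K] B, g * h = h * g := by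
    intro g h
    obtain ⟨g', rfl⟩ := AlgEquiv.restrictNormalHom_surjective (F := K) (K₁ := B) Ω g
    obtain ⟨h', rfl⟩ := AlgEquiv.restrictNormalHom_surjective (F := K) (K₁ := B) Ω h
    have h1 : AlgEquiv.restrictNormalHom B (g' * h' * (h' * g')⁻¹) = 1 := by
      apply hfix
      · rw [map_mul, map_inv, map_mul, map_mul, hMc (AlgEquiv.restrictNormalHom M g'),
          mul_inv_cancel]
      · rw [map_mul, map_inv, map_mul, map_mul, hNc (AlgEquiv.restrictNormalHom N g'),
          mul_inv_cancel]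
    rw [map_mul, map_inv, mul_inv_eq_one, map_mul, map_mul] at h1
    exact h1
  intro x hx
  refine leo_of_all ιp B hc x fun hfB ψ ↦ ?_
  set χ : Chr K Ω k := ψ.comp (AlgEquiv.restrictNormalHom (F := K) (K₁ := Ω) B) with hχ
  by_cases hcase : ∀ g : Ω ≃ₐ[K] Ω, AlgEquiv.restrictNormalHom M g = 1 → χ g = 1
  · -- `ψ` comes from `M`
    let iAB : Algebra M B := (IntermediateField.inclusion hMB).toRingHom.toAlgebra
    have hst : IsScalarTower K M B := IsScalarTower.of_algebraMap_eq fun _ ↦ rfl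
    have hNM : NumberField M := NumberField.of_module_finite K M
    have hNB : NumberField B := NumberField.of_module_finite K B
    have hGAB : IsGalois M B := IsGalois.tower_top_of_isGalois K M B
    have hfAB : FiniteDimensional M B := FiniteDimensional.right ℚ M B
    have hf2 : Fintype (B ≃ₐ[M] B) := Fintype.ofFinite _
    have h1 := eSum_incl_norm (K := K) (A := M) (B := B) ψ (fun τ ↦ by
      obtain ⟨g, hg⟩ := AlgEquiv.restrictNormalHom_surjective (F := K) (K₁ := B) Ω
        (τ.restrictScalars K)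
      have h2 := hcase g (by
        rw [restrict_eq_one_iff]
        intro y hy
        have h3 := restrict_apply B g ⟨y, hMB hy⟩
        rw [hg] at h3
        have h4 : (τ.restrictScalars K) (algebraMap M B ⟨y, hy⟩) = algebraMap M B ⟨y, hy⟩ :=
          AlgEquiv.commutes τ (⟨y, hy⟩ : M)
        exact h3.trans (congrArg Subtype.val h4))
      rw [hχ, MonoidHom.comp_apply, hg] at h2
      exact h2) x
    rw [hM _ (norm_killed (A := M) ιp L x hx)] at h1
    have h2 : eSum ψ (extMap (unitsMap (algebraMap M B)) (0 : k ⊗[ℤ] Additive (𝓞 M)ˣ)) = 0 := by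
      rw [map_zero, eSum]
      simp
    rw [h2] at h1
    exact (smul_eq_zero.1 h1.symm).resolve_left (Nat.cast_ne_zero.2 Fintype.card_ne_zero)
  · push Not at hcase
    obtain ⟨g₁, hg₁, hg₁'⟩ := hcase
    apply eSum_of_leopoldtFor ιinf ιp L B ψ _ x hx
    rw [← hχ]
    obtain ⟨a, ha1, ha2⟩ := Nat.chineseRemainder hcop 1 0
    obtain ⟨b, hb1, hb2⟩ := Nat.chineseRemainder hcop 0 1
    have hχB : ∀ g, AlgEquiv.restrictNormalHom B g = 1 → χ g = 1 := by
      intro g hg
      rw [hχ, MonoidHom.comp_apply, hg, map_one]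
    have hpM : ∀ g : M ≃ₐ[K] M, g ^ finrank K M = 1 := by
      intro g
      rw [← hcardM]
      exact pow_card_eq_one'
    have hpN : ∀ g : N ≃ₐ[K] N, g ^ q = 1 := by
      intro g
      rw [← hcardN]
      exact pow_card_eq_one'
    have hχ1 : ∀ g, AlgEquiv.restrictNormalHom M g = 1 → χ g ^ q = 1 := by
      intro g hg
      rw [← map_pow]
      apply hχB
      apply hfix
      · rw [map_pow, hg, one_pow]
      · rw [map_pow, hpN]
    have hχ2 : ∀ g, AlgEquiv.restrictNormalHom N g = 1 → χ g ^ finrank K M = 1 := by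
      intro g hg
      rw [← map_pow]
      apply hχB
      apply hfix
      · rw [map_pow, hpM]
      · rw [map_pow, hg, one_pow]
    have hχ3 : ∀ g, χ g ^ (finrank K M * q) = 1 := by
      intro g
      rw [← map_pow]
      apply hχB
      apply hfix
      · rw [map_pow, pow_mul, hpM, one_pow]
      · rw [map_pow, mul_comm, pow_mul, hpN, one_pow]
    have hab : χ = χ ^ a * χ ^ b := by
      apply MonoidHom.ext
      intro g
      rw [MonoidHom.mul_apply, MonoidHom.pow_apply, MonoidHom.pow_apply, ← pow_add]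
      have h1 : a + b ≡ 1 [MOD finrank K M * q] := by
        rw [← Nat.modEq_and_modEq_iff_modEq_mul hcop]
        exact ⟨by simpa using ha1.add hb1, by simpa using ha2.add hb2⟩
      have h2 := (pow_eq_pow_iff_modEq (x := χ g) (n := a + b) (m := 1)).2
        (h1.of_dvd (orderOf_dvd_of_pow_eq_one (hχ3 g)))
      rw [h2, pow_one]
    rw [hab]
    apply h
    · intro g hg
      rw [← restrict_eq_one_iff] at hg
      rw [MonoidHom.pow_apply]
      obtain ⟨c, hc⟩ := (Nat.modEq_zero_iff_dvd.1 ha2)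
      rw [hc, pow_mul, hχ1 g hg, one_pow]
    · have hle : ∀ g : Ω ≃ₐ[K] Ω, (∀ x ∈ N, g x = x) → (χ ^ b) g = 1 := by
        intro g hg
        rw [← restrict_eq_one_iff] at hg
        rw [MonoidHom.pow_apply]
        obtain ⟨c, hc⟩ := (Nat.modEq_zero_iff_dvd.1 hb1)
        rw [hc, pow_mul, hχ2 g hg, one_pow]
      obtain ⟨φ', hφ'⟩ := exists_desc (χ := χ ^ b) (H := N) hle
      have h1 : χ ^ b = φ'.comp (AlgEquiv.restrictNormalHom (F := K) (K₁ := Ω) N) := by
        apply MonoidHom.ext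
        intro g
        rw [MonoidHom.comp_apply]
        exact hφ' g _ (restrict_apply N g)
      rw [h1]
      apply cutsOut_of_ne_one hq N hN
      rintro rfl
      apply hg₁'
      have h2 : (χ ^ b) g₁ = 1 := by
        rw [h1]
        rfl
      rw [MonoidHom.pow_apply] at h2
      have h3 := (pow_eq_pow_iff_modEq (x := χ g₁) (n := b) (m := 1)).2
        (hb2.of_dvd (orderOf_dvd_of_pow_eq_one (hχ1 g₁ hg₁)))
      rw [h2, pow_one] at h3
      exact h3.symm

end

end Pool.Agent.Helper17.LEO
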